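import Pool.Agent.W206.CT.Fin
import Pool.Agent.W206.CT.CO
import Pool.Agent.W206.CT.E1

/-!
# Zilber's conjecture on intersections with tori and the powers of the line `x + y = 1`

The `k`-th power of the line `{x + y = 1}` is the `k`-dimensional subvariety
`{(z_1, ..., z_k, 1 - z_1, ..., 1 - z_k)}` of the torus `(ℂ^×)^(2k)`. We prove that Zilber's
conjecture for all subvarieties of all tori (the frozen statement `S00439`) is equivalent to the
statement that, for every `k`, this variety has only finitely many maximal atypical subvarieties,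
and also to the statement that its points with `k + 1` independent multiplicative relations lie in
finitely many atypical subvarieties.
-/

set_option autoImplicit false

namespace Pool.Agent.Results.MP_c95b3b_ag.PowersOfTheLine

open MvPolynomial

/-- Zilber's conjecture on intersections with tori, verbatim the frozen statement `S00439`. -/
def ZilberConjecture : Prop :=
  ∀ (n : ℕ) (P : Ideal (MvPolynomial (Fin n) ℂ)), P.IsPrime →
    (∏ i : Fin n, (MvPolynomial.X i : MvPolynomial (Fin n) ℂ)) ∉ P →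
    (∀ f : MvPolynomial (Fin n) ℂ,
      (∀ x : Fin n → ℂ, (∀ i, x i ≠ 0) → (∀ g ∈ P, MvPolynomial.eval x g = 0) →
        (∃ Λ : Submodule ℤ (Fin n → ℤ),
          ringKrullDim (MvPolynomial (Fin n) ℂ ⧸ P)
              + ((n - Module.finrank ℤ Λ : ℕ) : WithBot ℕ∞) + 1 ≤ (n : WithBot ℕ∞) ∧
          ∀ a ∈ Λ, ∏ i : Fin n, x i ^ a i = 1) →
        MvPolynomial.eval x f = 0) →
      ∀ x : Fin n → ℂ, (∀ i, x i ≠ 0) → (∀ g ∈ P, MvPolynomial.eval x g = 0) →
        MvPolynomial.eval x f = 0) →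
    ∃ a : Fin n → ℤ, a ≠ 0 ∧
      ∀ x : Fin n → ℂ, (∀ i, x i ≠ 0) → (∀ g ∈ P, MvPolynomial.eval x g = 0) →
        ∏ i : Fin n, x i ^ a i = 1

/-- The multiplicative relation with exponent vector `a` between the `2k` numbers
`z_1, ..., z_k, 1 - z_1, ..., 1 - z_k`. -/
def Relation {k : ℕ} (z : Fin k → ℂ) (a : Fin k ⊕ Fin k → ℤ) : Prop :=
  (∏ i, z i ^ a (Sum.inl i)) * ∏ i, (1 - z i) ^ a (Sum.inr i) = 1

/-- `P` is the prime ideal of an atypical subvariety `V` of the `k`-th power of the line: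
`P` is a prime ideal of `ℂ[z_1, ..., z_k]` containing no `z_i` and no `1 - z_i`, and there is a
lattice `Λ` of relations holding at all points of `V = V(P) ∩ {z_i ≠ 0, 1}` (that is, `V` lies in
an algebraic subgroup `H` of dimension `2k - rank Λ`) with `dim V + rank Λ ≥ k + 1` (that is,
`dim V > k + dim H - 2k`). -/
def Atypical (k : ℕ) (P : Ideal (MvPolynomial (Fin k) ℂ)) : Prop :=
  P.IsPrime ∧ (∀ i, X i ∉ P ∧ (1 - X i : MvPolynomial (Fin k) ℂ) ∉ P) ∧
  ∃ Λ : Submodule ℤ (Fin k ⊕ Fin k → ℤ),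
    (k : WithBot ℕ∞) + 1 ≤ ringKrullDim (MvPolynomial (Fin k) ℂ ⧸ P) +
      (Module.finrank ℤ Λ : WithBot ℕ∞) ∧
    ∀ a ∈ Λ, ∀ z : Fin k → ℂ, (∀ i, z i ≠ 0 ∧ z i ≠ 1) → (∀ f ∈ P, eval z f = 0) →
      Relation z a

/-- The following are equivalent.
(1) Zilber's conjecture for all irreducible subvarieties of all tori.
(2) For every `k`, the `k`-th power of the line `x + y = 1` has only finitely many maximal
atypical subvarieties: there is a finite set of atypical subvarieties such that every atypical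
subvariety is contained in one of them.
(3) For every `k`, the points `z` of `(ℂ ∖ {0, 1})^k` for which the `2k` numbers `z_i`, `1 - z_i`
satisfy `k + 1` independent multiplicative relations lie in finitely many atypical
subvarieties. -/
theorem result :
    List.TFAE [
      ZilberConjecture,
      ∀ k : ℕ, ∃ S : Finset (Ideal (MvPolynomial (Fin k) ℂ)), (∀ P ∈ S, Atypical k P) ∧
        ∀ Q : Ideal (MvPolynomial (Fin k) ℂ), Atypical k Q → ∃ P ∈ S, P ≤ Q,
      ∀ k : ℕ, ∃ S : Finset (Ideal (MvPolynomial (Fin k) ℂ)), (∀ P ∈ S, Atypical k P) ∧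
        ∀ z : Fin k → ℂ, (∀ i, z i ≠ 0 ∧ z i ≠ 1) →
          (∃ Λ : Submodule ℤ (Fin k ⊕ Fin k → ℤ), k + 1 ≤ Module.finrank ℤ Λ ∧
            ∀ a ∈ Λ, Relation z a) →
          ∃ P ∈ S, ∀ f ∈ P, eval z f = 0] := by
  have hCO := W206.CT.t_co
  tfae_have 1 → 2 := by
    intro h k
    obtain ⟨S, hS1, hS2⟩ := W206.CT.finAtyp_of_zil hCO h k
    refine ⟨S, fun P hP => ?_, fun Q hQ => ?_⟩
    · obtain ⟨L, _, _, ω, hω, rfl⟩ := hS1 P hP
      exact W206.CT.Atypical_of_atyp hCO hω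
    · obtain ⟨L, _, _, ω, hω, rfl⟩ := W206.CT.atyp_of_Atypical hQ
      exact hS2 L ω hω
  tfae_have 2 → 3 := by
    intro h k
    obtain ⟨S, hS1, hS2⟩ := h k
    refine ⟨S, hS1, fun z hz hΛ => ?_⟩
    obtain ⟨Λ, hΛ1, hΛ2⟩ := hΛ
    have hat : W206.CT.AtypPt ℂ z :=
      ⟨hz, 0, Λ, ⟨Fin.elim0, algebraicIndependent_empty_type, fun i => i.elim0⟩, hΛ2, by
        rw [Fintype.card_fin]; omega⟩
    obtain ⟨P, hP, hle⟩ := hS2 _ (W206.CT.Atypical_of_atyp hCO hat)
    refine ⟨P, hP, fun f hf => ?_⟩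
    have := hle hf
    rw [RingHom.mem_ker] at this
    rw [← coe_aeval_eq_eval]
    exact this
  tfae_have 3 → 1 := by
    intro h
    refine W206.CT.zil_of_finAtyp hCO W206.CT.t_e1 fun k => ?_
    obtain ⟨S, hS1, hS2⟩ := h k
    refine ⟨S, fun P hP => W206.CT.atyp_of_Atypical (hS1 P hP), ?_⟩
    intro L _ _ ω hω
    by_contra hno
    push Not at hno
    have hQp : (RingHom.ker (aeval ω : MvPolynomial (Fin k) ℂ →ₐ[ℂ] L)).IsPrime :=
      RingHom.ker_isPrime _
    have h1 : ∀ P : S, ∃ f ∈ P.1, f ∉ RingHom.ker (aeval ω : MvPolynomial (Fin k) ℂ →ₐ[ℂ] L) :=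
      fun P => Set.not_subset.mp (hno P.1 P.2)
    choose f hf1 hf2 using h1
    have h2 : ∏ P, f P ∉ RingHom.ker (aeval ω : MvPolynomial (Fin k) ℂ →ₐ[ℂ] L) := by
      intro h3
      obtain ⟨P, -, hP⟩ := (hQp.prod_mem_iff (s := Finset.univ)).1 h3
      exact hf2 P hP
    obtain ⟨z, hz1, hz2, hz3, hz4⟩ := W206.CT.special_point hCO W206.CT.t_d1 hω _ h2
    obtain ⟨P, hP, hP2⟩ := hS2 z hz3 hz4
    apply hz2
    rw [map_prod]
    exact Finset.prod_eq_zero (Finset.mem_univ (⟨P, hP⟩ : S)) (hP2 _ (hf1 ⟨P, hP⟩))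
  tfae_finish

end Pool.Agent.Results.MP_c95b3b_ag.PowersOfTheLine
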